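import Pool.Agent.N836.SM.Stm
import Pool.Agent.TH197.SymAP.Gordan

/-! # Part LP of the proof of S18875 (helper216): Gordan duality, growth, ultrafilter limit -/

set_option autoImplicit false

open Filter Topology Finset

namespace Pool.Agent.N216.SM

open Pool.Agent.N836.SM

/-! ### Gordan's lemma -/

section Gordan

variable {R : Type} {n : ℕ}

open Classical in
/-- the vector of the relation -/
noncomputable def qv (x : Fin n → R) : (Fin n × Fin n × R) →₀ ℚ :=
  ∑ i, ∑ i', (Finsupp.single (i, i', x i) 1 - Finsupp.single (i, i', x i') 1)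

open Classical in
theorem qv_apply (x : Fin n → R) (i i' : Fin n) (r : R) :
    qv x (i, i', r) = (if x i = r then 1 else 0) - (if x i' = r then 1 else 0) := by
  unfold qv
  rw [Finsupp.finsetSum_apply]
  simp only [Finsupp.finsetSum_apply, Finsupp.sub_apply, Finsupp.single_apply, Prod.mk.injEq]
  rw [Finset.sum_eq_single i, Finset.sum_eq_single i']
  · simp
  · intro b _ hb
    simp [hb]
  · simp
  · intro b _ hb
    simp [hb]
  · simp

theorem gordan_alt (H : Set (Fin n → R)) (s : Finset (Fin n → R)) (_hs : ∀ x ∈ s, x ∈ H) :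
    (∃ (N : ℕ) (X : Fin N → Fin n → R), (∀ k, X k ∈ s) ∧ 0 < N ∧
      ∀ i i' : Fin n, (Finset.univ.val.map fun k => X k i) = Finset.univ.val.map fun k => X k i') ∨
    ∃ f : Fin n → R → ℝ, (∀ r, ∑ i, f i r = 0) ∧ ∀ x ∈ s, 0 < ∑ i, f i (x i) := by
  classical
  rcases Pool.Agent.TH197.SymAP.gordan (k := ℚ) s _ (fun x => qv x) with ⟨φ, hφ⟩ | ⟨l, hl0, ⟨x0, hx0, hx0'⟩, hl⟩
  · right
    refine ⟨fun i r => ∑ i', ((φ (Finsupp.single (i, i', r) 1) : ℝ) -
      (φ (Finsupp.single (i', i, r) 1) : ℝ)), ?_, ?_⟩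
    · intro r
      simp only [Finset.sum_sub_distrib]
      rw [Finset.sum_comm, sub_self]
    · intro x hx
      have h1 := hφ x hx
      have h2 : ((φ (qv x) : ℚ) : ℝ) = ∑ i, ∑ i', ((φ (Finsupp.single (i, i', x i) 1) : ℝ) -
          (φ (Finsupp.single (i', i, x i) 1) : ℝ)) := by
        unfold qv
        simp only [map_sum, map_sub, Finset.sum_sub_distrib]
        push_cast
        congr 1
        rw [Finset.sum_comm]
      rw [← h2]
      exact_mod_cast h1
  · left
    obtain ⟨D, hD, hD2⟩ := Pool.Agent.TH197.SymAP.clear (fun x : s => l x) (fun x => hl0 x x.2)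
    obtain ⟨w, hw⟩ := hD2 D dvd_rfl
    set S : Multiset (Fin n → R) := ∑ x : s, w x • {(x : Fin n → R)} with hS
    have hmem : ∀ y ∈ S, y ∈ s := by
      intro y hy
      rw [hS, Multiset.mem_sum] at hy
      obtain ⟨x, _, hx⟩ := hy
      have := Multiset.mem_of_mem_nsmul hx
      rw [Multiset.mem_singleton] at this
      rw [this]
      exact x.2
    have hcard : 0 < Multiset.card S := by
      have : w ⟨x0, hx0⟩ ≠ 0 := by
        intro h
        have h3 := hw ⟨x0, hx0⟩
        rw [h] at h3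
        simp only [Nat.cast_zero] at h3
        rcases mul_eq_zero.1 h3.symm with h4 | h4
        · rw [Nat.cast_eq_zero] at h4
          omega
        · exact hx0' h4
      rw [Multiset.card_pos]
      intro h
      have h5 : Multiset.card S = ∑ x : s, w x := by
        rw [hS, Multiset.card_sum]
        simp
      rw [h, Multiset.card_zero] at h5
      have h6 := (Finset.sum_eq_zero_iff.1 h5.symm) ⟨x0, hx0⟩ (mem_univ _)
      exact this h6
    have hcount : ∀ (i : Fin n) (r : R), ((S.map fun x => x i).count r : ℚ) =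
        D * ∑ x ∈ s, l x * (if x i = r then 1 else 0) := by
      intro i r
      have h1 : (S.map fun x => x i) = ∑ x : s, w x • {(x : Fin n → R) i} := by
        have := map_sum (Multiset.mapAddMonoidHom (fun x : Fin n → R => x i))
          (fun x : s => w x • ({(x : Fin n → R)} : Multiset _)) univ
        rw [Multiset.coe_mapAddMonoidHom] at this
        rw [hS, this]
        refine Finset.sum_congr rfl fun x _ => ?_
        rw [Multiset.map_nsmul, Multiset.map_singleton]
      rw [h1, Multiset.count_sum']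
      push_cast
      rw [Finset.mul_sum, ← Finset.sum_coe_sort s]
      refine Finset.sum_congr rfl fun x _ => ?_
      rw [Multiset.count_nsmul, Multiset.count_singleton]
      push_cast
      rw [hw x]
      by_cases h : (x : Fin n → R) i = r
      · simp [h]
      · simp [h, Ne.symm h]
    refine ⟨S.toList.length, fun k => S.toList.get k, ?_, ?_, ?_⟩
    · intro k
      apply hmem
      rw [← Multiset.mem_toList]
      exact List.get_mem _ _
    · rw [Multiset.length_toList]
      exact hcard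
    · intro i i'
      have h1 : ∀ j : Fin n, (Finset.univ.val.map fun k : Fin S.toList.length => S.toList.get k j) =
          S.map fun x => x j := by
        intro j
        have h2 : (Finset.univ.val.map fun k : Fin S.toList.length => S.toList.get k j) =
            (Finset.univ.val.map fun k : Fin S.toList.length => S.toList.get k).map
              (fun x => x j) := by
          rw [Multiset.map_map]
          rfl
        rw [h2, Fin.univ_val_map, List.ofFn_get, Multiset.coe_toList]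
      rw [h1, h1]
      ext r
      have h3 := congrArg (fun v => v (i, i', r)) hl
      simp only [Finsupp.finsetSum_apply, Finsupp.smul_apply, qv_apply, Finsupp.coe_zero,
        Pi.zero_apply, smul_eq_mul, mul_sub, Finset.sum_sub_distrib] at h3
      have h4 : ((S.map fun x => x i).count r : ℚ) = ((S.map fun x => x i').count r : ℚ) := by
        rw [hcount, hcount]
        congr 1
        linarith
      exact_mod_cast h4

end Gordan

/-! ### growth -/

section Growth

variable {R : Type} {n : ℕ}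

theorem exists_D (n : ℕ) (q : ℝ) (h0 : 0 ≤ q) (h1 : q < 1) : ∃ D : ℕ, (n : ℝ) ^ 2 * q ^ D ≤ 1 := by
  have h := (tendsto_pow_atTop_nhds_zero_of_lt_one h0 h1).const_mul ((n : ℝ) ^ 2)
  rw [mul_zero] at h
  obtain ⟨D, hD⟩ := (h.eventually (gt_mem_nhds (zero_lt_one))).exists
  exact ⟨D, hD.le⟩

/-- the growth lemma -/
theorem growth (size : R → ℝ) (H : Set (Fin n → R)) (hs0 : ∀ r, 0 ≤ size r)
    (θ' ρ0 : ℝ) (hθ0 : 0 < θ') (hθ : θ' < 1) (hρ0 : 0 < ρ0)
    (hcon : ∀ (i : Fin n) (r : R), ρ0 < size r → ∃ x ∈ H, x i = r ∧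
      ∀ j, j ≠ i → size (x j) ≤ θ' * size r)
    (D : ℕ) (hD : ∀ s : ℝ, ρ0 ≤ s → (n : ℝ) ^ 2 * (1 + θ' * s) ^ D ≤ (1 + s) ^ D)
    (K M : ℝ) (hM : 0 ≤ M) (f : Fin n → R → ℝ) (hf : ∀ r, ∑ i, f i r = 0)
    (hG : ∀ x ∈ H, (∀ i, size (x i) ≤ K) → 0 ≤ ∑ i, f i (x i))
    (hb : ∀ i r, size r ≤ ρ0 → |f i r| ≤ M) :
    ∀ i r, size r ≤ K → |f i r| ≤ M * (1 + size r) ^ D := by
  have key : ∀ m : ℕ, ∀ r, size r ≤ K → size r ≤ ρ0 * (1 / θ') ^ m →
      ∀ i, |f i r| ≤ M * (1 + size r) ^ D := by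
    intro m
    induction m with
    | zero =>
      intro r _ hr i
      rw [pow_zero, mul_one] at hr
      have h1 : (1 : ℝ) ≤ (1 + size r) ^ D := one_le_pow₀ (by linarith [hs0 r])
      calc |f i r| ≤ M := hb i r hr
        _ = M * 1 := (mul_one M).symm
        _ ≤ M * (1 + size r) ^ D := mul_le_mul_of_nonneg_left h1 hM
    | succ m ih =>
      intro r hrK hr i
      by_cases hr0 : size r ≤ ρ0
      · have h1 : (1 : ℝ) ≤ (1 + size r) ^ D := one_le_pow₀ (by linarith [hs0 r])
        calc |f i r| ≤ M := hb i r hr0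
          _ = M * 1 := (mul_one M).symm
          _ ≤ M * (1 + size r) ^ D := mul_le_mul_of_nonneg_left h1 hM
      push Not at hr0
      set s := size r with hs
      have hspos : 0 < s := lt_trans hρ0 hr0
      set T : ℝ := M * (1 + θ' * s) ^ D with hT
      have hT0 : 0 ≤ T := by positivity
      have hn1 : (1 : ℝ) ≤ n := by
        have : 0 < n := Fin.pos i
        exact_mod_cast this
      -- lower bound
      have hlow : ∀ i, -(n * T) ≤ f i r := by
        intro i
        obtain ⟨x, hxH, hxi, hxj⟩ := hcon i r hr0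
        have hle : ∀ j, size (x j) ≤ K := by
          intro j
          by_cases hj : j = i
          · rw [hj, hxi]; exact hrK
          · have := hxj j hj
            nlinarith
        have h1 := hG x hxH hle
        rw [← Finset.add_sum_erase _ _ (Finset.mem_univ i), hxi] at h1
        have h2 : ∑ j ∈ univ.erase i, f j (x j) ≤ ∑ j ∈ univ.erase i, T := by
          refine Finset.sum_le_sum fun j hj => ?_
          have hj' : j ≠ i := (Finset.mem_erase.1 hj).1
          have h3 := hxj j hj'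
          have h4 : size (x j) ≤ ρ0 * (1 / θ') ^ m := by
            calc size (x j) ≤ θ' * s := h3
              _ ≤ θ' * (ρ0 * (1 / θ') ^ (m + 1)) := mul_le_mul_of_nonneg_left hr hθ0.le
              _ = ρ0 * (1 / θ') ^ m := by
                rw [pow_succ]
                field_simp
          have h5 := ih (x j) (hle j) h4 j
          calc f j (x j) ≤ |f j (x j)| := le_abs_self _
            _ ≤ M * (1 + size (x j)) ^ D := h5
            _ ≤ T := by
              rw [hT]
              apply mul_le_mul_of_nonneg_left _ hM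
              apply pow_le_pow_left₀ (by linarith [hs0 (x j)])
              linarith
        rw [Finset.sum_const, Finset.card_erase_of_mem (Finset.mem_univ i), Finset.card_univ,
          Fintype.card_fin, nsmul_eq_mul] at h2
        have h6 : ((n - 1 : ℕ) : ℝ) * T ≤ n * T := by
          apply mul_le_mul_of_nonneg_right _ hT0
          exact_mod_cast Nat.sub_le n 1
        linarith
      -- upper bound
      have hup : f i r ≤ n * (n * T) := by
        have h1 := hf r
        rw [← Finset.add_sum_erase _ _ (Finset.mem_univ i)] at h1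
        have h2 : ∑ j ∈ univ.erase i, (-(n * T)) ≤ ∑ j ∈ univ.erase i, f j r :=
          Finset.sum_le_sum fun j _ => hlow j
        rw [Finset.sum_const, Finset.card_erase_of_mem (Finset.mem_univ i), Finset.card_univ,
          Fintype.card_fin, nsmul_eq_mul] at h2
        have h6 : ((n - 1 : ℕ) : ℝ) * (n * T) ≤ n * (n * T) := by
          apply mul_le_mul_of_nonneg_right _ (by positivity)
          exact_mod_cast Nat.sub_le n 1
        nlinarith
      have h7 : n * T ≤ n * (n * T) := by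
        have : 0 ≤ n * T := by positivity
        nlinarith
      have h8 : |f i r| ≤ n * (n * T) := abs_le.2 ⟨by linarith [hlow i], hup⟩
      calc |f i r| ≤ n * (n * T) := h8
        _ = M * ((n : ℝ) ^ 2 * (1 + θ' * s) ^ D) := by rw [hT]; ring
        _ ≤ M * (1 + s) ^ D := mul_le_mul_of_nonneg_left (hD s hr0.le) hM
  intro i r hr
  obtain ⟨m, hm⟩ : ∃ m : ℕ, size r ≤ ρ0 * (1 / θ') ^ m := by
    have h1 : 1 < 1 / θ' := by
      rw [lt_div_iff₀ hθ0]
      linarith
    obtain ⟨m, hm⟩ := pow_unbounded_of_one_lt (size r / ρ0) h1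
    refine ⟨m, ?_⟩
    rw [div_lt_iff₀ hρ0] at hm
    linarith
  exact key m r hr hm i

end Growth

/-- the restriction to a subset of `R` -/
def res {R : Type} {n : ℕ} (B : Set R) : (Fin n → R → ℝ) →ₗ[ℝ] (Fin n → B → ℝ) where
  toFun g i r := g i r
  map_add' _ _ := rfl
  map_smul' _ _ := rfl

/-- the functions whose sums vanish identically -/
def LL {R : Type} {n : ℕ} (H : Set (Fin n → R)) : Submodule ℝ (Fin n → R → ℝ) where
  carrier := {g | (∀ r, ∑ i, g i r = 0) ∧ ∀ x ∈ H, ∑ i, g i (x i) = 0}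
  add_mem' := by
    intro a b ha hb
    refine ⟨fun r => ?_, fun x hx => ?_⟩
    · simp only [Pi.add_apply, Finset.sum_add_distrib, ha.1 r, hb.1 r, add_zero]
    · simp only [Pi.add_apply, Finset.sum_add_distrib, ha.2 x hx, hb.2 x hx, add_zero]
  zero_mem' := ⟨fun r => by simp, fun x _ => by simp⟩
  smul_mem' := by
    intro c a ha
    refine ⟨fun r => ?_, fun x hx => ?_⟩
    · simp only [Pi.smul_apply, smul_eq_mul, ← Finset.mul_sum, ha.1 r, mul_zero]
    · simp only [Pi.smul_apply, smul_eq_mul, ← Finset.mul_sum, ha.2 x hx, mul_zero]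

theorem partLP : S_LP := by
  classical
  intro R _ n size H hfin hs0 ⟨θ, C, hθ1, hcon⟩ ⟨x0, hx0H, hx0⟩ hrig
  by_contra hno
  -- Gordan
  have L0 : ∀ k : ℕ, ∃ f : Fin n → R → ℝ, (∀ r, ∑ i, f i r = 0) ∧
      ∀ x ∈ H, x ≠ 0 → (∀ i, size (x i) ≤ k) → 0 < ∑ i, f i (x i) := by
    intro k
    have hfinite : {x | x ∈ H ∧ x ≠ 0 ∧ ∀ i, size (x i) ≤ (k : ℝ)}.Finite := by
      refine (Set.Finite.pi' (fun _ : Fin n => hfin k)).subset ?_
      intro x hx
      exact hx.2.2
    rcases gordan_alt H hfinite.toFinset (fun x hx => (hfinite.mem_toFinset.1 hx).1) with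
      ⟨N, X, hX, hN, hXX⟩ | ⟨f, hf, hf2⟩
    · exfalso
      apply hno
      exact ⟨N, X, fun k => (hfinite.mem_toFinset.1 (hX k)).1,
        ⟨⟨0, hN⟩, (hfinite.mem_toFinset.1 (hX _)).2.1⟩, hXX⟩
    · exact ⟨f, hf, fun x hx h1 h2 => hf2 x (hfinite.mem_toFinset.2 ⟨hx, h1, h2⟩)⟩
  -- constants
  obtain ⟨θ1, C1, hθ1', hθ10, hC10, hcon1⟩ : ∃ θ1 C1 : ℝ, θ1 < 1 ∧ 0 ≤ θ1 ∧ 0 ≤ C1 ∧
      ∀ (i : Fin n) (r : R), ∃ x ∈ H, x i = r ∧
        ∀ j, j ≠ i → size (x j) ≤ θ1 * size r + C1 := by
    refine ⟨max θ 0, max C 0, max_lt hθ1 one_pos, le_max_right _ _, le_max_right _ _, ?_⟩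
    intro i r
    obtain ⟨x, h1, h2, h3⟩ := hcon i r
    refine ⟨x, h1, h2, fun j hj => (h3 j hj).trans ?_⟩
    exact add_le_add (mul_le_mul_of_nonneg_right (le_max_left _ _) (hs0 r)) (le_max_left _ _)
  obtain ⟨θ', hθ'⟩ : ∃ θ' : ℝ, θ' = (1 + θ1) / 2 := ⟨_, rfl⟩
  obtain ⟨ρ0, hρ0⟩ : ∃ ρ0 : ℝ, ρ0 = 2 * C1 / (1 - θ1) + 1 := ⟨_, rfl⟩
  have hθ'0 : 0 < θ' := by rw [hθ']; linarith
  have hθ'1 : θ' < 1 := by rw [hθ']; linarith
  have h1θ : 0 < 1 - θ1 := by linarith
  have hρ1 : 1 ≤ ρ0 := by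
    rw [hρ0]
    have : 0 ≤ 2 * C1 / (1 - θ1) := by positivity
    linarith
  have hcon2 : ∀ (i : Fin n) (r : R), ρ0 < size r → ∃ x ∈ H, x i = r ∧
      ∀ j, j ≠ i → size (x j) ≤ θ' * size r := by
    intro i r hr
    obtain ⟨x, h1, h2, h3⟩ := hcon1 i r
    refine ⟨x, h1, h2, fun j hj => (h3 j hj).trans ?_⟩
    have h4 : C1 ≤ (1 - θ1) / 2 * size r := by
      have h5 : 2 * C1 / (1 - θ1) < size r := by rw [hρ0] at hr; linarith
      rw [div_lt_iff₀ h1θ] at h5
      linarith
    rw [hθ']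
    linarith
  obtain ⟨D, hD⟩ : ∃ D : ℕ, ∀ s : ℝ, ρ0 ≤ s → (n : ℝ) ^ 2 * (1 + θ' * s) ^ D ≤ (1 + s) ^ D := by
    set q : ℝ := (1 + θ' * ρ0) / (1 + ρ0) with hq
    have hq0 : 0 ≤ q := by positivity
    have hq1 : q < 1 := by
      rw [hq, div_lt_one (by linarith)]
      nlinarith
    obtain ⟨D, hD⟩ := exists_D n q hq0 hq1
    refine ⟨D, fun s hs => ?_⟩
    have h1 : 1 + θ' * s ≤ q * (1 + s) := by
      rw [hq, div_mul_eq_mul_div, le_div_iff₀ (by linarith)]
      nlinarith
    have h2 : (1 + θ' * s) ^ D ≤ (q * (1 + s)) ^ D := by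
      apply pow_le_pow_left₀ _ h1
      nlinarith
    calc (n : ℝ) ^ 2 * (1 + θ' * s) ^ D ≤ (n : ℝ) ^ 2 * (q * (1 + s)) ^ D :=
          mul_le_mul_of_nonneg_left h2 (by positivity)
      _ = ((n : ℝ) ^ 2 * q ^ D) * (1 + s) ^ D := by rw [mul_pow]; ring
      _ ≤ 1 * (1 + s) ^ D := by
          apply mul_le_mul_of_nonneg_right hD
          apply pow_nonneg
          linarith
      _ = (1 + s) ^ D := one_mul _
  -- complement
  set B : Set R := {r | size r ≤ ρ0} with hB
  have : Fintype B := (hfin ρ0).fintype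
  obtain ⟨W, hW⟩ := Submodule.exists_isCompl ((LL H).map (res (n := n) B))
  obtain ⟨k0, hk0⟩ : ∃ k0 : ℕ, ∀ i, size (x0 i) ≤ k0 := by
    obtain ⟨k0, hk0⟩ := exists_nat_ge (∑ i, size (x0 i))
    refine ⟨k0, fun i => le_trans ?_ hk0⟩
    exact Finset.single_le_sum (f := fun i => size (x0 i)) (fun j _ => hs0 _) (mem_univ i)
  have L2 : ∀ k : ℕ, k0 ≤ k → ∃ h : Fin n → R → ℝ, (∀ r, ∑ i, h i r = 0) ∧
      (∀ x ∈ H, (∀ i, size (x i) ≤ k) → 0 ≤ ∑ i, h i (x i)) ∧ res B h ∈ W ∧
      ‖res B h‖ = 1 ∧ ∀ i r, size r ≤ k → |h i r| ≤ (1 + size r) ^ D := by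
    intro k hk
    obtain ⟨f, hf, hf2⟩ := L0 k
    have hmem : res B f ∈ (LL H).map (res (n := n) B) ⊔ W := by
      rw [hW.sup_eq_top]
      exact Submodule.mem_top
    obtain ⟨a, ⟨ℓ, hℓ, rfl⟩, w, hw, hsum⟩ := Submodule.mem_sup.1 hmem
    have hres : res B (f - ℓ) = w := by
      rw [map_sub, ← hsum]
      simp
    have hℓ' : (∀ r, ∑ i, ℓ i r = 0) ∧ ∀ x ∈ H, ∑ i, ℓ i (x i) = 0 := hℓ
    have h1 : ∀ r, ∑ i, (f - ℓ) i r = 0 := by
      intro r
      simp only [Pi.sub_apply, Finset.sum_sub_distrib, hf r, hℓ'.1 r, sub_zero]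
    have h2 : ∀ x ∈ H, ∑ i, (f - ℓ) i (x i) = ∑ i, f i (x i) := by
      intro x hx
      simp only [Pi.sub_apply, Finset.sum_sub_distrib, hℓ'.2 x hx, sub_zero]
    have h3 : ∀ x ∈ H, (∀ i, size (x i) ≤ k) → 0 ≤ ∑ i, (f - ℓ) i (x i) := by
      intro x hx hxk
      rw [h2 x hx]
      by_cases hx0 : x = 0
      · rw [hx0]
        exact (hf 0).ge
      · exact (hf2 x hx hx0 hxk).le
    have hw0 : w ≠ 0 := by
      intro hw0
      rw [hw0] at hres
      have h4 := growth size H hs0 θ' ρ0 hθ'0 hθ'1 (by linarith) hcon2 D hD k 0 le_rfl (f - ℓ)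
        h1 h3 (by
          intro i r hr
          have := congrFun (congrFun hres i) ⟨r, hr⟩
          change (f - ℓ) i r = 0 at this
          rw [this, abs_zero])
      have hk' : (k0 : ℝ) ≤ k := by exact_mod_cast hk
      have h5 : ∑ i, (f - ℓ) i (x0 i) = 0 := by
        refine Finset.sum_eq_zero fun i _ => ?_
        have h6 := h4 i (x0 i) ((hk0 i).trans hk')
        rw [zero_mul] at h6
        exact abs_nonpos_iff.1 h6
      rw [h2 x0 hx0H] at h5
      exact (hf2 x0 hx0H hx0 (fun i => (hk0 i).trans hk')).ne' h5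
    have hwn : 0 < ‖w‖ := norm_pos_iff.2 hw0
    set h : Fin n → R → ℝ := (1 / ‖w‖) • (f - ℓ) with hh
    have e1 : ∀ r, ∑ i, h i r = 0 := by
      intro r
      rw [hh]
      simp only [Pi.smul_apply, smul_eq_mul, ← Finset.mul_sum, h1 r, mul_zero]
    have e2 : ∀ x ∈ H, (∀ i, size (x i) ≤ k) → 0 ≤ ∑ i, h i (x i) := by
      intro x hx hxk
      rw [hh]
      simp only [Pi.smul_apply, smul_eq_mul, ← Finset.mul_sum]
      exact mul_nonneg (by positivity) (h3 x hx hxk)
    have e3 : res B h = (1 / ‖w‖) • w := by rw [hh, map_smul, hres]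
    have e4 : ‖res B h‖ = 1 := by
      rw [e3, norm_smul, norm_div, norm_one, norm_norm]
      field_simp
    refine ⟨h, e1, e2, ?_, e4, ?_⟩
    · rw [e3]
      exact W.smul_mem _ hw
    · have h4 := growth size H hs0 θ' ρ0 hθ'0 hθ'1 (by linarith) hcon2 D hD k 1 zero_le_one h
        e1 e2 (by
          intro i r hr
          have h5 : ‖res B h i ⟨r, hr⟩‖ ≤ ‖res B h‖ :=
            (norm_le_pi_norm (res B h i) ⟨r, hr⟩).trans (norm_le_pi_norm (res B h) i)
          rw [e4] at h5
          exact h5)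
      intro i r hr
      have := h4 i r hr
      rwa [one_mul] at this
  -- limit along an ultrafilter
  choose! hk hk1 hk2 hk3 hk4 hk5 using L2
  set F : ℕ → Fin n → R → ℝ := fun k i r => if k0 ≤ k ∧ size r ≤ k then hk k i r else 0 with hF
  have hFK : ∀ k, F k ∈ Set.univ.pi (fun _ : Fin n => Set.univ.pi
      (fun r : R => Set.Icc (-(1 + size r) ^ D) ((1 + size r) ^ D))) := by
    intro k i _ r _
    have h0 : (0 : ℝ) ≤ (1 + size r) ^ D := pow_nonneg (by linarith [hs0 r]) _
    change (if k0 ≤ k ∧ size r ≤ k then hk k i r else 0) ∈ _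
    split_ifs with h
    · have := abs_le.1 (hk5 k h.1 i r h.2)
      exact ⟨this.1, this.2⟩
    · exact ⟨by linarith, h0⟩
  have hcomp : IsCompact (Set.univ.pi (fun _ : Fin n => Set.univ.pi
      (fun r : R => Set.Icc (-(1 + size r) ^ D) ((1 + size r) ^ D)))) :=
    isCompact_univ_pi fun _ => isCompact_univ_pi fun _ => isCompact_Icc
  obtain ⟨g, hgK, hg⟩ := hcomp.ultrafilter_le_nhds' ((hyperfilter ℕ).map F) (by
    rw [Ultrafilter.mem_map]
    exact Filter.univ_mem' hFK)
  have hlim : Tendsto F (hyperfilter ℕ) (𝓝 g) := hg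
  have hat : ((hyperfilter ℕ : Ultrafilter ℕ) : Filter ℕ) ≤ atTop := Nat.hyperfilter_le_atTop
  have hlim2 : ∀ i r, Tendsto (fun k => F k i r) (hyperfilter ℕ) (𝓝 (g i r)) := by
    intro i r
    have h1 := (tendsto_pi_nhds.1 hlim) i
    exact (tendsto_pi_nhds.1 h1) r
  have hev : ∀ r : R, ∀ᶠ k : ℕ in (hyperfilter ℕ : Filter ℕ), ∀ i, F k i r = hk k i r := by
    intro r
    obtain ⟨k1, hk1⟩ := exists_nat_ge (size r)
    have : ∀ᶠ k : ℕ in atTop, ∀ i, F k i r = hk k i r := by
      filter_upwards [eventually_ge_atTop k0, eventually_ge_atTop k1] with k h1 h2 i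
      have : (k1 : ℝ) ≤ k := by exact_mod_cast h2
      change (if k0 ≤ k ∧ size r ≤ k then hk k i r else 0) = _
      rw [if_pos ⟨h1, by linarith⟩]
    exact hat this
  have hge : ∀ᶠ k : ℕ in (hyperfilter ℕ : Filter ℕ), k0 ≤ k := hat (eventually_ge_atTop k0)
  have g1 : ∀ r, ∑ i, g i r = 0 := by
    intro r
    have h1 : Tendsto (fun k => ∑ i, F k i r) (hyperfilter ℕ) (𝓝 (∑ i, g i r)) :=
      tendsto_finsetSum _ fun i _ => hlim2 i r
    have h2 : Tendsto (fun k => ∑ i, F k i r) (hyperfilter ℕ) (𝓝 0) := by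
      refine tendsto_const_nhds.congr' ?_
      filter_upwards [hev r, hge] with k h3 h4
      rw [Finset.sum_congr rfl fun i _ => h3 i, hk1 k h4 r]
    exact tendsto_nhds_unique h1 h2
  have g2 : ∀ x ∈ H, 0 ≤ ∑ i, g i (x i) := by
    intro x hx
    have h1 : Tendsto (fun k => ∑ i, F k i (x i)) (hyperfilter ℕ) (𝓝 (∑ i, g i (x i))) :=
      tendsto_finsetSum _ fun i _ => hlim2 i (x i)
    refine ge_of_tendsto h1 ?_
    obtain ⟨k1, hk1'⟩ := exists_nat_ge (∑ i, size (x i))
    have h5 : ∀ᶠ k : ℕ in (hyperfilter ℕ : Filter ℕ), k1 ≤ k := hat (eventually_ge_atTop k1)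
    have h6 : ∀ᶠ k : ℕ in (hyperfilter ℕ : Filter ℕ), ∀ i, F k i (x i) = hk k i (x i) := by
      rw [eventually_all]
      intro i
      filter_upwards [hev (x i)] with k h
      exact h i
    filter_upwards [h6, hge, h5] with k h3 h4 h7
    rw [Finset.sum_congr rfl fun i _ => h3 i]
    apply hk2 k h4 x hx
    intro i
    have h8 : size (x i) ≤ ∑ i, size (x i) :=
      Finset.single_le_sum (f := fun i => size (x i)) (fun j _ => hs0 _) (mem_univ i)
    have h9 : (k1 : ℝ) ≤ k := by exact_mod_cast h7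
    linarith
  have g3 : ∀ i r, |g i r| ≤ 1 * (1 + size r) ^ D := by
    intro i r
    have := hgK i (Set.mem_univ i) r (Set.mem_univ r)
    rw [one_mul]
    exact abs_le.2 ⟨this.1, this.2⟩
  have hrg := hrig g ⟨1, D, g3⟩ g1 g2
  have hgL : g ∈ LL H := ⟨g1, hrg⟩
  have hresF : Tendsto (fun k => res B (F k)) (hyperfilter ℕ) (𝓝 (res B g)) := by
    rw [tendsto_pi_nhds]
    intro i
    rw [tendsto_pi_nhds]
    intro r
    exact hlim2 i r
  have hresE : ∀ᶠ k : ℕ in (hyperfilter ℕ : Filter ℕ), res B (F k) = res B (hk k) := by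
    have h6 : ∀ᶠ k : ℕ in (hyperfilter ℕ : Filter ℕ), ∀ r : B, ∀ i, F k i r = hk k i r := by
      rw [eventually_all]
      intro r
      exact hev r
    filter_upwards [h6] with k h
    funext i r
    exact h r i
  have hW1 : res B g ∈ W := by
    have hcl : IsClosed (W : Set (Fin n → B → ℝ)) := W.closed_of_finiteDimensional
    refine hcl.mem_of_tendsto hresF ?_
    filter_upwards [hresE, hge] with k h1 h2
    rw [h1]
    exact hk3 k h2
  have hn1 : ‖res B g‖ = 1 := by
    have h1 := hresF.norm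
    have h2 : Tendsto (fun k => ‖res B (F k)‖) (hyperfilter ℕ) (𝓝 1) := by
      refine tendsto_const_nhds.congr' ?_
      filter_upwards [hresE, hge] with k h3 h4
      rw [h3, hk4 k h4]
    exact tendsto_nhds_unique h1 h2
  have hbot : res B g ∈ (LL H).map (res (n := n) B) ⊓ W :=
    ⟨⟨g, hgL, rfl⟩, hW1⟩
  rw [hW.inf_eq_bot, Submodule.mem_bot] at hbot
  rw [hbot, norm_zero] at hn1
  exact zero_ne_one hn1

end Pool.Agent.N216.SM
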